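import Pool.Agent.Y531.Sgen.Jets

/-!
# The logarithmic derivative at a point, and ranks
-/

set_option autoImplicit false
set_option linter.unusedSectionVars false
set_option maxHeartbeats 1000000
set_option synthInstance.maxHeartbeats 200000

namespace Pool.Agent.Y531.Sgen

open MvPolynomial Pool.Agent.W942 Pool.Agent.Y531 Pool.Agent.Y531.Mul Pool.Agent.Y531.Hit
open Pool.Agent.Y531.Smooth Pool.Agent.Y531.Hlim

variable {a b h : ℕ} {σ : Type} [Fintype σ] {s : ℕ} {ϑ₀ : σ → SF (Fin b ⊕ Fin a) (FF a b h ℝ)}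

/-- **The logarithmic derivative at a point.** -/
theorem log_rank {m Δ : ℕ} (h0 : ∀ j, ϑ₀ j ∅ = 0) {T : ℕ → ℕ} (hT0 : 2 ≤ T 0)
    (hTm : Monotone T) (hTK : T (2 * Δ + 3) ≤ a + b) {ϑ : ℝ} (hϑ0 : 0 < ϑ)
    (hvar : ∀ j, Good (bitFrame a b h) (T 0) ϑ (ϑ₀ j))
    (hscale : ∀ k, k < 2 * Δ + 3 → ∃ z : ℝ, 0 ≤ z ∧ z ≤ 1 ∧ NumScale a b h (T k) z ∧
      z ^ (T (k + 1)) ≤ ϑ) {x : σ → ℝ} (g : Fin s → GOp σ s m (a + b))
    (hg : ∀ t i, Fine (g i) (rounds g t) x) (c : Comb σ s) (f : MvPolynomial σ ℝ)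
    (hc : PE (a + b) (fun z => c.val z (rounds g (Δ + 1) z) - eval z f) x 0)
    (hf : eval x f ≠ 0) (i₀ : Fin b ⊕ Fin a)
    {L : SF (Fin b ⊕ Fin a) (FF a b h ℝ)}
    (hL : SF.dd i₀ (thS (RingHom.id ℝ) (leafAt ϑ₀ x) f) =
      L * SF.sg i₀ (thS (RingHom.id ℝ) (leafAt ϑ₀ x) f)) :
    HasRkR (L (Finset.univ.erase i₀)) (2 ^ ((a + b) ^ 2) * (((Fintype.card σ : ℝ) + s + 1) *
      (cost (Fintype.card σ) s m (a + b) ^ (Δ + 1) * ϑ)) * 2 ^ (b * (a * h))) := by
  classical
  have hcard : Fintype.card (Fin b ⊕ Fin a) = a + b := by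
    rw [Fintype.card_sum, Fintype.card_fin, Fintype.card_fin, add_comm]
  have hout := out_good (Δ := Δ) h0 hT0 hTm hϑ0 hvar (fun k hk => hscale k (by omega)) g hg c f hc
  set Pt := thS (RingHom.id ℝ) (leafAt ϑ₀ x) f with hPt
  have hP0 : Pt ∅ = algebraMap ℝ (FF a b h ℝ) (eval x f) := by
    have h1 := thS_empty (RingHom.id ℝ) (leafAt ϑ₀ x) (z := x) (fun j => by
      rw [leafAt, SF.add_def, h0, add_zero, SF.cst_apply, if_pos rfl]) f
    exact h1
  set cc := cost (Fintype.card σ) s m (a + b) with hcc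
  have hc1 : 1 ≤ cc := one_le_cost _ s m (a + b)
  have hn0 : (0:ℝ) ≤ Fintype.card σ := Nat.cast_nonneg _
  have hs0 : (0:ℝ) ≤ s := Nat.cast_nonneg s
  set X : ℝ := ((Fintype.card σ : ℝ) + s + 1) * (cc ^ (Δ + 1) * ϑ) with hX
  have hX0 : 0 ≤ X := by positivity
  have hϑX : ϑ ≤ X := by
    have h1 : (1:ℝ) ≤ ((Fintype.card σ : ℝ) + s + 1) * cc ^ (Δ + 1) :=
      one_le_mul_of_one_le_of_one_le (by linarith) (one_le_pow₀ hc1)
    have h2 : X = (((Fintype.card σ : ℝ) + s + 1) * cc ^ (Δ + 1)) * ϑ := by rw [hX]; ring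
    rw [h2]
    exact le_mul_of_one_le_left hϑ0.le h1
  obtain ⟨z, hz0, hz1, hzs, hzT⟩ := hscale (2 * Δ + 2) (by omega)
  set B : Finset (Fin b ⊕ Fin a) := Finset.univ.erase i₀ with hB
  have hBi : i₀ ∉ B := Finset.notMem_erase _ _
  have hBins : insert i₀ B = Finset.univ := Finset.insert_erase (Finset.mem_univ _)
  have hBc : B.card = a + b - 1 := by
    rw [hB, Finset.card_erase_of_mem (Finset.mem_univ _), Finset.card_univ, hcard]
  have hbd := LD.bd (triv_bitFrame a b h) hz0 hz1 hX0 (scale_of_num hzs) hout hf hP0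
    (show LD i₀ Pt L from hL) B.card B rfl hBi
  rw [hBins] at hbd
  have hmax : max (z ^ (Finset.univ : Finset (Fin b ⊕ Fin a)).card) X = X := by
    refine max_eq_right ?_
    rw [Finset.card_univ, hcard]
    exact ((pow_le_pow_of_le_one hz0 hz1 hTK).trans hzT).trans hϑX
  have hwt : (bitFrame a b h).wt Finset.univ = 2 ^ (b * (a * h)) := by
    rw [wt_bitFrame]
    have h4 : lef (Finset.univ : Finset (Fin b ⊕ Fin a)) = b := by
      rw [lef, Finset.preimage_univ, Finset.card_univ, Fintype.card_fin]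
    have h5 : rig (Finset.univ : Finset (Fin b ⊕ Fin a)) = a := by
      rw [rig, Finset.preimage_univ, Finset.card_univ, Fintype.card_fin]
    rw [h4, h5]
    have h6 : a * h * b + b * h * a = 2 * (b * (a * h)) := by ring
    rw [h6, pow_mul, Real.sq_sqrt (by norm_num)]
  refine hbd.2.mono ?_
  rw [hmax, hwt, hBc]
  have h1 : (2:ℝ) ^ ((a + b - 1) ^ 2) ≤ 2 ^ ((a + b) ^ 2) :=
    pow_le_pow_right₀ (by norm_num) (Nat.pow_le_pow_left (Nat.sub_le _ _) 2)
  gcongr

/-! ## Ranks -/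

section rank
variable {K : Type*} [Field K] {U V : Type*} [Fintype U] [Fintype V]

theorem hasRk_iff (M : U → V → K) (r : ℕ) : HasRk M r ↔ (Matrix.of M).rank ≤ r := by
  classical
  constructor
  · rintro ⟨f, g, hfg⟩
    have h1 : Matrix.of M = (Matrix.of fun (u : U) (i : Fin r) => f i u) *
        (Matrix.of fun (i : Fin r) (v : V) => g i v) := by
      ext u v
      rw [Matrix.mul_apply, Matrix.of_apply, hfg]
      rfl
    rw [h1]
    refine (Matrix.rank_mul_le_left _ _).trans ?_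
    refine (Matrix.rank_le_card_width _).trans ?_
    rw [Fintype.card_fin]
  · intro hr
    obtain ⟨f, hf1, hf2, hf3⟩ := Submodule.exists_fun_fin_finrank_span_eq K
      (Set.range (Matrix.of M).row)
    have h1 : Module.finrank K (Submodule.span K (Set.range (Matrix.of M).row)) ≤ r := by
      rw [← Matrix.rank_eq_finrank_span_row]
      exact hr
    refine HasRk.mono ?_ h1
    have h2 : ∀ u, ∃ c : Fin (Module.finrank K (Submodule.span K
        (Set.range (Matrix.of M).row))) → K, ∑ i, c i • f i = (Matrix.of M).row u := by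
      intro u
      have h3 : (Matrix.of M).row u ∈ Submodule.span K (Set.range f) := by
        rw [hf2]
        exact Submodule.subset_span ⟨u, rfl⟩
      exact (Submodule.mem_span_range_iff_exists_fun K).1 h3
    choose c hc using h2
    refine ⟨fun i u => c u i, fun i v => f i v, fun u v => ?_⟩
    have h3 := congrFun (hc u) v
    rw [Finset.sum_apply] at h3
    exact h3.symm

end rank

end Pool.Agent.Y531.Sgen
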