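import Pool.Agent.Y531.Smooth.Main
import Pool.Agent.Y531.Hlim.Pts

/-!
# The Taylor polynomials of the values of a program along nilpotent leaves
-/

set_option autoImplicit false
set_option linter.unusedSectionVars false
set_option maxHeartbeats 1000000
set_option synthInstance.maxHeartbeats 200000

namespace Pool.Agent.Y531.Sgen

open MvPolynomial Pool.Agent.W942 Pool.Agent.Y531 Pool.Agent.Y531.Mul Pool.Agent.Y531.Hit
open Pool.Agent.Y531.Smooth Pool.Agent.Y531.Hlim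

variable {a b h : ℕ} {σ : Type}

section jet
variable (ϑ₀ : σ → SF (Fin b ⊕ Fin a) (FF a b h ℝ))

/-- The expansion at zero. -/
noncomputable def jet : MvPolynomial σ ℝ →ₐ[ℝ] SF (Fin b ⊕ Fin a) (FF a b h ℝ) :=
  { thS (RingHom.id ℝ) ϑ₀ with
    commutes' := fun c => thS_C (RingHom.id ℝ) ϑ₀ c }

variable {ϑ₀}

theorem jet_apply (p : MvPolynomial σ ℝ) : jet ϑ₀ p = thS (RingHom.id ℝ) ϑ₀ p := rfl

theorem jet_C (c : ℝ) : jet ϑ₀ (C c) = SF.cst (algebraMap ℝ (FF a b h ℝ) c) :=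
  thS_C (RingHom.id ℝ) ϑ₀ c

theorem jet_X (j : σ) : jet ϑ₀ (X j) = ϑ₀ j := thS_X (RingHom.id ℝ) ϑ₀ j

theorem jet_empty (h0 : ∀ j, ϑ₀ j ∅ = 0) (p : MvPolynomial σ ℝ) :
    jet ϑ₀ p ∅ = algebraMap ℝ (FF a b h ℝ) (eval 0 p) :=
  thS_empty (RingHom.id ℝ) ϑ₀ (z := fun _ => 0) (fun j => by rw [h0, map_zero]) p

/-- The expansion at a point. -/
noncomputable def leafAt (ϑ₀ : σ → SF (Fin b ⊕ Fin a) (FF a b h ℝ)) (x : σ → ℝ) (j : σ) :
    SF (Fin b ⊕ Fin a) (FF a b h ℝ) := SF.cst (algebraMap ℝ (FF a b h ℝ) (x j)) + ϑ₀ j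

theorem jet_shift (x : σ → ℝ) (p : MvPolynomial σ ℝ) :
    jet ϑ₀ (aeval (fun j => C (x j) + X j) p) = thS (RingHom.id ℝ) (leafAt ϑ₀ x) p := by
  have h1 : ((jet ϑ₀).toRingHom.comp (aeval (R := ℝ)
      (fun j => C (x j) + X j : σ → MvPolynomial σ ℝ)).toRingHom) =
      thS (RingHom.id ℝ) (leafAt ϑ₀ x) := by
    refine MvPolynomial.ringHom_ext (fun r => ?_) (fun j => ?_)
    · rw [RingHom.comp_apply, thS_C]
      show jet ϑ₀ (aeval _ (C r)) = _
      rw [algHom_C]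
      exact jet_C r
    · rw [RingHom.comp_apply, thS_X]
      show jet ϑ₀ (aeval _ (X j)) = _
      rw [aeval_X, map_add, jet_C, jet_X, leafAt]
  exact congrFun (congrArg DFunLike.coe h1) p

end jet

section
variable [Fintype σ] {s d : ℕ} {T T₀ : ℕ} {X ϑ : ℝ} {ϑ₀ : σ → SF (Fin b ⊕ Fin a) (FF a b h ℝ)}

theorem comb_good (hT₀ : 1 ≤ T₀) (hTT₀ : T₀ ≤ T) (hϑ : 0 ≤ ϑ) (hX : ϑ ≤ X)
    (hvar : ∀ j, Good (bitFrame a b h) T₀ ϑ (ϑ₀ j))
    {x : σ → ℝ} {P : Fin s → MvPolynomial σ ℝ}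
    (hP : ∀ i, Good (bitFrame a b h) T X (jet ϑ₀ (P i))) (c : Comb σ s) :
    Good (bitFrame a b h) T (((Fintype.card σ : ℝ) + s + 1) * X) (jet ϑ₀ (c.poly x P)) := by
  classical
  have hX0 : 0 ≤ X := hϑ.trans hX
  have h1 := span_good (Φ := bitFrame a b h) (I := σ ⊕ Fin s)
    (A := MvPolynomial σ ℝ) (F := ℝ) (T := T) (X := X) (by omega) hX0
    (g := Sum.elim (fun j => C (x j) + MvPolynomial.X j) P) (p := fun _ => True)
    (Θ := jet ϑ₀) (f := c.poly x P) (by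
      rintro (j | i) _
      · show Good _ T X (jet ϑ₀ (C (x j) + MvPolynomial.X j))
        rw [map_add, jet_C, jet_X, add_comm]
        exact (Good_add_cst hT₀ (hvar j) (x j)).mono hTT₀ hX
      · exact hP i) (by
      rw [Comb.poly]
      refine Submodule.add_mem _ (Submodule.add_mem _ ?_ (Submodule.sum_mem _ fun j _ => ?_))
        (Submodule.sum_mem _ fun i _ => ?_)
      · have h2 : (C c.const : MvPolynomial σ ℝ) = c.const • 1 := by
          rw [MvPolynomial.smul_eq_C_mul, mul_one]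
        rw [h2]
        exact Submodule.smul_mem _ _ (Submodule.subset_span (Set.mem_insert _ _))
      · rw [← MvPolynomial.smul_eq_C_mul]
        exact Submodule.smul_mem _ _ (Submodule.subset_span (Set.mem_insert_of_mem _
          ⟨Sum.inl j, trivial, rfl⟩))
      · rw [← MvPolynomial.smul_eq_C_mul]
        exact Submodule.smul_mem _ _ (Submodule.subset_span (Set.mem_insert_of_mem _
          ⟨Sum.inr i, trivial, rfl⟩)))
  refine h1.mono le_rfl ?_
  rw [Fintype.card_sum, Fintype.card_fin]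
  push_cast
  nlinarith

/-- **One round.** -/
theorem step {m : ℕ} (h0 : ∀ j, ϑ₀ j ∅ = 0)
    (hvar : ∀ j, Good (bitFrame a b h) T₀ ϑ (ϑ₀ j)) (hT₀ : 2 ≤ T₀) (hTT₀ : T₀ ≤ T)
    {T' T'' : ℕ} {z z' : ℝ}
    (hTT : T ≤ T') (hTT' : T' ≤ T'') (hz0 : 0 ≤ z) (hz1 : z ≤ 1) (hz0' : 0 ≤ z')
    (hz1' : z' ≤ 1) (hϑ : 0 ≤ ϑ) (hX : ϑ ≤ X) (hs : NumScale a b h T z)
    (hs' : NumScale a b h T' z') (hzT : z ^ T' ≤ ϑ) (hzT' : z' ^ T'' ≤ ϑ)
    {x : σ → ℝ} {F : (σ → ℝ) → Fin s → ℝ}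
    (hF : ∀ i, ∃ P, PE d (fun z => F z i) x P ∧ Good (bitFrame a b h) T X (jet ϑ₀ P))
    (g : GOp σ s m d) (hg : Fine g F x) :
    ∃ P, PE d (fun z => g.val z (F z)) x P ∧
      Good (bitFrame a b h) T'' (cost (Fintype.card σ) s m (a + b) * X) (jet ϑ₀ P) := by
  classical
  choose P hP1 hP2 using hF
  have hcard : Fintype.card (Fin b ⊕ Fin a) = a + b := by
    rw [Fintype.card_sum, Fintype.card_fin, Fintype.card_fin, add_comm]
  have hX0 : 0 ≤ X := hϑ.trans hX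
  set N : ℝ := ((Fintype.card σ : ℝ) + s + 1) with hN
  have hs0 : (0:ℝ) ≤ s := Nat.cast_nonneg s
  have hm0 : (0:ℝ) ≤ m := Nat.cast_nonneg m
  have hN1 : 1 ≤ N := by
    have : (0:ℝ) ≤ (Fintype.card σ : ℝ) := Nat.cast_nonneg _
    rw [hN]; linarith
  have hNX : ϑ ≤ N * X := hX.trans (le_mul_of_one_le_left hX0 hN1)
  have hNX0 : 0 ≤ N * X := hϑ.trans hNX
  have hc0 : 0 ≤ cost (Fintype.card σ) s m (a + b) * X :=
    mul_nonneg (zero_le_one.trans (one_le_cost _ _ _ _)) hX0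
  have h21 : (1:ℝ) ≤ 2 ^ (2 * (a + b) ^ 2) := one_le_pow₀ (by norm_num)
  have hm1 : (1:ℝ) ≤ ((m : ℝ) + 1) ^ (a + b) := one_le_pow₀ (by linarith)
  have hce : cost (Fintype.card σ) s m (a + b) * X =
      (((s : ℝ) + 1) * 2 ^ (2 * (a + b) ^ 2) * ((m : ℝ) + 1) ^ (a + b)) * (N * X) := by
    rw [cost, hN]; ring
  have hbig : ∀ y : ℝ, y ≤ ((s : ℝ) + 1) * 2 ^ (2 * (a + b) ^ 2) * ((m : ℝ) + 1) ^ (a + b) →
      y * (N * X) ≤ cost (Fintype.card σ) s m (a + b) * X := fun y hy => by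
    rw [hce]; exact mul_le_mul_of_nonneg_right hy hNX0
  have ht := triv_bitFrame (F := ℝ) a b h
  have hscale := scale_of_num (F := ℝ) hs
  have hscale' := scale_of_num (F := ℝ) hs'
  have hcg : ∀ c : Comb σ s, Good (bitFrame a b h) T (N * X) (jet ϑ₀ (c.poly x P)) :=
    fun c => comb_good (by omega) hTT₀ hϑ hX hvar hP2 c
  cases g with
  | prod p le arg =>
    by_cases hflat : ∃ j, PE d (fun z => (arg j).val z (F z)) x 0
    · obtain ⟨j₀, hj₀⟩ := hflat
      refine ⟨0, ?_, ?_⟩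
      · have h1 := PE.prod (d := d) (x := x) Finset.univ
          (f := fun j z => (arg j).val z (F z))
          (P := fun j => if j = j₀ then 0 else (arg j).poly x P) (fun j _ => by
            by_cases hj : j = j₀
            · simp only [if_pos hj]
              rw [hj]
              exact hj₀
            · simp only [if_neg hj]
              exact (arg j).pe hP1)
        have h2 : (∏ j, if j = j₀ then (0 : MvPolynomial σ ℝ)
            else (arg j).poly x P) = 0 :=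
          Finset.prod_eq_zero (Finset.mem_univ j₀) (by rw [if_pos rfl])
        rw [h2] at h1
        exact h1
      · rw [map_zero]
        exact Good.zero hc0
    · push Not at hflat
      have hne : ∀ j, (arg j).val x (F x) ≠ 0 := fun j =>
        (hg p le arg rfl j).resolve_right (hflat j)
      refine ⟨∏ j, (arg j).poly x P, PE.prod _ fun j _ => (arg j).pe hP1, ?_⟩
      rw [map_prod]
      rcases Nat.eq_zero_or_pos p with hp | hp
      · subst hp
        rw [Finset.univ_eq_empty, Finset.prod_empty]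
        have h1 := Good.cst (Φ := bitFrame a b h) (T := T'')
          (X := cost (Fintype.card σ) s m (a + b) * X) (by omega) hc0 (1 : ℝ)
        exact h1
      · have h1 := prod_good ht hz0 hz1 hz0' hz1' hϑ hNX hscale hscale' hzT hzT'
          (Finset.univ : Finset (Fin p)) ⟨⟨0, hp⟩, Finset.mem_univ _⟩
          (fun j => jet ϑ₀ ((arg j).poly x P)) (fun _ => 1)
          (fun j _ => hcg (arg j))
          (fun j _ => ⟨(arg j).val x (F x), hne j, by
            rw [jet_empty h0, ((arg j).pe hP1).apply_zero]⟩)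
        simp only [pow_one] at h1
        refine h1.mono le_rfl (hbig _ ?_)
        rw [Finset.card_univ, Fintype.card_fin, hcard]
        have hps : (p : ℝ) ≤ (s : ℝ) + 1 := by
          have : (p : ℝ) ≤ s := by exact_mod_cast le
          linarith
        calc (p : ℝ) * 2 ^ (2 * (a + b) ^ 2) ≤ ((s : ℝ) + 1) * 2 ^ (2 * (a + b) ^ 2) * 1 := by
              rw [mul_one]; gcongr
          _ ≤ _ := by gcongr
  | fn φ smooth arg =>
    set y₀ : Fin m → ℝ := fun j => (arg j).val x (F x) with hy₀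
    obtain ⟨Q, hQ⟩ := exists_PE d φ smooth y₀
    refine ⟨_, hQ.comp (fun j => (arg j).pe hP1) (fun j => rfl), ?_⟩
    have h1 : jet ϑ₀ (aeval (fun j => (arg j).poly x P - C (y₀ j)) Q) =
        aeval (fun j => jet ϑ₀ ((arg j).poly x P))
          (aeval (fun j => MvPolynomial.X j - C (y₀ j)) Q : MvPolynomial (Fin m) ℝ) := by
      rw [← AlgHom.comp_apply, ← AlgHom.comp_apply]
      congr 1
      refine MvPolynomial.algHom_ext fun j => ?_
      rw [AlgHom.comp_apply, AlgHom.comp_apply, aeval_X, aeval_X, map_sub, map_sub, aeval_X,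
        jet_C, algHom_C]
      rfl
    rw [h1]
    have h2 := poly_good ht hz0 hz1 hϑ hNX hscale hzT
      (fun j => jet ϑ₀ ((arg j).poly x P)) (fun j => hcg (arg j))
      ((m : ℝ) + 1) (by linarith) (by rw [Fintype.card_fin]; linarith)
      (aeval (fun j => MvPolynomial.X j - C (y₀ j)) Q)
    refine h2.mono hTT' (hbig _ ?_)
    rw [hcard]
    have h3 : (2:ℝ) ^ ((a + b) ^ 2) ≤ 2 ^ (2 * (a + b) ^ 2) :=
      pow_le_pow_right₀ (by norm_num) (by omega)
    calc ((m : ℝ) + 1) ^ (a + b) * 2 ^ ((a + b) ^ 2)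
        ≤ ((m : ℝ) + 1) ^ (a + b) * 2 ^ (2 * (a + b) ^ 2) := by gcongr
      _ = 1 * 2 ^ (2 * (a + b) ^ 2) * ((m : ℝ) + 1) ^ (a + b) := by ring
      _ ≤ _ := by gcongr; linarith

/-- **All rounds.** -/
theorem rounds_good' {m Δ : ℕ} (h0 : ∀ j, ϑ₀ j ∅ = 0) {T : ℕ → ℕ} (hT0 : 2 ≤ T 0)
    (hTm : Monotone T) {ϑ : ℝ} (hϑ0 : 0 < ϑ)
    (hvar : ∀ j, Good (bitFrame a b h) (T 0) ϑ (ϑ₀ j))
    (hscale : ∀ k, k < 2 * Δ + 2 → ∃ z : ℝ, 0 ≤ z ∧ z ≤ 1 ∧ NumScale a b h (T k) z ∧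
      z ^ (T (k + 1)) ≤ ϑ) {x : σ → ℝ} (g : Fin s → GOp σ s m d)
    (hg : ∀ t i, Fine (g i) (rounds g t) x) : ∀ t, t ≤ Δ + 1 → ∀ i,
    ∃ P, PE d (fun z => rounds g t z i) x P ∧ Good (bitFrame a b h) (T (2 * t))
      (cost (Fintype.card σ) s m (a + b) ^ t * ϑ) (jet ϑ₀ P) := by
  intro t
  have hc1 : 1 ≤ cost (Fintype.card σ) s m (a + b) := one_le_cost _ _ _ _
  induction t with
  | zero =>
    intro _ i
    refine ⟨0, ?_, ?_⟩
    · have h1 := PE.const (d := d) (x := x) 0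
      rw [map_zero] at h1
      exact h1
    · rw [map_zero]
      exact Good.zero (by positivity)
  | succ t ih =>
    intro ht i
    obtain ⟨z, hz0, hz1, hzs, hzT⟩ := hscale (2 * t) (by omega)
    obtain ⟨z', hz0', hz1', hzs', hzT'⟩ := hscale (2 * t + 1) (by omega)
    obtain ⟨P, hP1, hP2⟩ := step h0 hvar hT0 (hTm (Nat.zero_le _)) (hTm (Nat.le_succ (2 * t)))
      (hTm (Nat.le_succ (2 * t + 1))) hz0 hz1 hz0' hz1' hϑ0.le
      (X := cost (Fintype.card σ) s m (a + b) ^ t * ϑ)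
      (le_mul_of_one_le_left hϑ0.le (one_le_pow₀ hc1)) hzs hzs' hzT hzT'
      (ih (by omega)) (g i) (hg t i)
    refine ⟨P, hP1, ?_⟩
    have h1 : cost (Fintype.card σ) s m (a + b) ^ (t + 1) * ϑ =
        cost (Fintype.card σ) s m (a + b) * (cost (Fintype.card σ) s m (a + b) ^ t * ϑ) := by
      ring
    rw [h1]
    exact hP2

/-- Only the coefficients of degree at most `a + b` matter. -/
theorem jet_eq_zero (h0 : ∀ j, ϑ₀ j ∅ = 0) {P : MvPolynomial σ ℝ}
    (hP : ∀ μ : σ →₀ ℕ, μ.degree ≤ a + b → coeff μ P = 0) : jet ϑ₀ P = 0 := by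
  classical
  have hcard : Fintype.card (Fin b ⊕ Fin a) = a + b := by
    rw [Fintype.card_sum, Fintype.card_fin, Fintype.card_fin, add_comm]
  refine SF.ext' fun S' => ?_
  rw [P.as_sum, map_sum, SF.sum_apply]
  refine Finset.sum_eq_zero fun μ hμ => ?_
  have hdeg : a + b < μ.degree := by
    by_contra hcon
    push Not at hcon
    exact (MvPolynomial.mem_support_iff.1 hμ) (hP μ hcon)
  have h1 : (monomial μ (coeff μ P)) =
      C (coeff μ P) * ∏ j ∈ μ.support, (MvPolynomial.X j : MvPolynomial σ ℝ) ^ μ j := by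
    rw [MvPolynomial.monomial_eq, Finsupp.prod]
  rw [h1, map_mul, map_prod, jet_C, SF.cst_mul_apply]
  simp only [map_pow]
  rw [fil_prod (f := fun j => jet ϑ₀ (MvPolynomial.X j) ^ μ j) (k := fun j => μ j) μ.support
    (fun j _ => fil_pow (fun S hS => ?_) (μ j)), mul_zero]
  · have h2 : S'.card ≤ a + b := by
      rw [← hcard]
      exact Finset.card_le_univ S'
    exact h2.trans_lt hdeg
  · have hS0 : S = ∅ := Finset.card_eq_zero.1 (by omega)
    rw [hS0, jet_X, h0]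

/-- **The expansion of a polynomial which agrees with the output of a program.** -/
theorem out_good {m Δ : ℕ} (h0 : ∀ j, ϑ₀ j ∅ = 0) {T : ℕ → ℕ} (hT0 : 2 ≤ T 0)
    (hTm : Monotone T) {ϑ : ℝ} (hϑ0 : 0 < ϑ)
    (hvar : ∀ j, Good (bitFrame a b h) (T 0) ϑ (ϑ₀ j))
    (hscale : ∀ k, k < 2 * Δ + 2 → ∃ z : ℝ, 0 ≤ z ∧ z ≤ 1 ∧ NumScale a b h (T k) z ∧
      z ^ (T (k + 1)) ≤ ϑ) {x : σ → ℝ} (g : Fin s → GOp σ s m (a + b))
    (hg : ∀ t i, Fine (g i) (rounds g t) x) (c : Comb σ s) (f : MvPolynomial σ ℝ)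
    (hc : PE (a + b) (fun z => c.val z (rounds g (Δ + 1) z) - eval z f) x 0) :
    Good (bitFrame a b h) (T (2 * Δ + 2)) (((Fintype.card σ : ℝ) + s + 1) *
      (cost (Fintype.card σ) s m (a + b) ^ (Δ + 1) * ϑ))
      (thS (RingHom.id ℝ) (leafAt ϑ₀ x) f) := by
  classical
  have h1 := rounds_good' (d := a + b) h0 hT0 hTm hϑ0 hvar hscale g hg (Δ + 1) le_rfl
  choose P hP1 hP2 using h1
  have hc1 : 1 ≤ cost (Fintype.card σ) s m (a + b) := one_le_cost _ _ _ _
  have h2 := comb_good (x := x) (by omega) (hTm (Nat.zero_le (2 * (Δ + 1)))) hϑ0.le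
    (le_mul_of_one_le_left hϑ0.le (one_le_pow₀ hc1)) hvar hP2 c
  have h3 : PE (a + b) (fun z => c.val z (rounds g (Δ + 1) z)) x (c.poly x P) := c.pe hP1
  set R : MvPolynomial σ ℝ := aeval (fun j => C (x j) + MvPolynomial.X j) f with hR
  have h4 : PE (a + b) (fun z => eval z f) x R := by
    have h5 := PE.aeval (d := a + b) (x := x) (f := fun (j : σ) z => z j)
      (P := fun j => C (x j) + MvPolynomial.X j) (fun j => PE.var j) f
    exact h5
  have h5 := h3.sub h4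
  have h6 : jet ϑ₀ (c.poly x P - R) = 0 := by
    refine jet_eq_zero h0 fun μ hμ => ?_
    rw [PE.zero_of_eq h5 hc hμ, coeff_zero]
  have h7 : jet ϑ₀ (c.poly x P) = thS (RingHom.id ℝ) (leafAt ϑ₀ x) f := by
    rw [map_sub, sub_eq_zero] at h6
    rw [h6, hR, jet_shift]
  rw [← h7]
  exact h2

end

end Pool.Agent.Y531.Sgen
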