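import Pool.Agent.Y531.Sgen.Transfer

/-!
# The rank inequality for a polynomial which vanishes on the generator
-/

set_option autoImplicit false
set_option linter.unusedSectionVars false
set_option maxHeartbeats 1000000
set_option synthInstance.maxHeartbeats 200000

namespace Pool.Agent.Y531.Sgen

open MvPolynomial Pool.Agent.W942 Pool.Agent.Y531 Pool.Agent.Y531.Mul Pool.Agent.Y531.Hit
open Pool.Agent.Y531.Smooth Pool.Agent.Y531.Hlim MeasureTheory

variable {a b h q : ℕ}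

section leaf
variable {n : ℕ} (A : Cell a b h × ZMod q → ℝ) (Lc : Cell a b h → ZMod q)
  (t : ℕ) (pos : Cell a b h → ZMod q) (i : Fin n) (x : Fin n → ℝ)

/-- The value of a coordinate. -/
noncomputable def baseAt (R : Type) [CommRing R] [Algebra ℝ R] (ζ : R) (j : Fin n) : R :=
  ((Hit.sub ℝ t pos i x (MvPolynomial.X j)).map (MvPolynomial.eval A)).eval₂ (algebraMap ℝ R) ζ

/-- The nilpotent part of the expansion of a coordinate. -/
noncomputable def nilLeaf (j : Fin n) : SF (Fin b ⊕ Fin a) (FF a b h ℝ) :=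
  leaf A Lc t pos i x ℝ 0 j -
    SF.cst (algebraMap ℝ (FF a b h ℝ) (baseAt A t pos i x ℝ 0 j))

theorem nilLeaf_empty (j : Fin n) : nilLeaf A Lc t pos i x j ∅ = 0 := by
  rw [nilLeaf, SF.sub_def, leaf_empty, SF.cst_apply, if_pos rfl]
  exact sub_self _

theorem leaf_split {R : Type} [CommRing R] [Algebra ℝ R] (ζ : R) (j : Fin n) :
    leaf A Lc t pos i x R ζ j =
      SF.cst (algebraMap R (FF a b h R) (baseAt A t pos i x R ζ j)) +
        SF.mapR (SF.push (algebraMap ℝ R)) (nilLeaf A Lc t pos i x j) := by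
  refine SF.ext' fun S => ?_
  by_cases hS : S = ∅
  · subst hS
    rw [leaf_empty, SF.add_def, SF.cst_apply, if_pos rfl, SF.mapR_apply, nilLeaf_empty, map_zero,
      add_zero]
    rfl
  · rw [SF.add_def, SF.cst_apply, if_neg hS, zero_add, SF.mapR_apply, nilLeaf, SF.sub_def,
      SF.cst_apply, if_neg hS, sub_zero]
    have hC : ∀ p : MvPolynomial (Cell a b h × ZMod q) ℝ,
        zHom R A Lc ζ (Polynomial.C p) S =
          SF.push (algebraMap ℝ R) (zHom ℝ A Lc 0 (Polynomial.C p) S) := by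
      intro p
      rw [zHom_C, zHom_C, ← thetaHom_map A Lc (Algebra.ofId ℝ R) p, SF.mapR_apply]
      rfl
    rw [leaf, leaf, Hit.sub, MvPolynomial.aeval_X]
    split_ifs with h1 h2
    · exact hC _
    · rw [zHom_X, zHom_X, SF.cst_apply, if_neg hS, SF.cst_apply, if_neg hS, map_zero]
    · exact hC _

end leaf

theorem cstR_apply {σ : Type} (f : MvPolynomial σ ℝ) (r : ℝ) :
    cstR f r = algebraMap (MvPolynomial σ ℝ) (Localization.Away f) (C r) := rfl

/-- The logarithmic derivative at a point. -/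
theorem gen_at {σ : Type} {f : MvPolynomial σ ℝ} {ϑ₀ : σ → SF (Fin b ⊕ Fin a) (FF a b h ℝ)}
    {i₀ : Fin b ⊕ Fin a} {LG : SF (Fin b ⊕ Fin a) (FF a b h (Localization.Away f))}
    (hLG : ∀ {A : Type} [CommRing A] (φ : Localization.Away f →+* A),
      SF.dd i₀ (thS (φ.comp (cstR f)) (fun j => SF.mapR (SF.push φ) (leafG f ϑ₀ j)) f) =
        SF.mapR (SF.push φ) LG *
          SF.sg i₀ (thS (φ.comp (cstR f)) (fun j => SF.mapR (SF.push φ) (leafG f ϑ₀ j)) f))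
    {x : σ → ℝ} (hx : eval x f ≠ 0) :
    SF.dd i₀ (thS (RingHom.id ℝ) (leafAt ϑ₀ x) f) =
      SF.mapR (SF.push (evAt hx)) LG * SF.sg i₀ (thS (RingHom.id ℝ) (leafAt ϑ₀ x) f) := by
  have h2 : (evAt hx).comp (cstR f) = RingHom.id ℝ := by
    refine RingHom.ext fun r => ?_
    rw [RingHom.comp_apply, cstR_apply, evAt_apply, eval_C, RingHom.id_apply]
  have h4 : ∀ g : SF (Fin b ⊕ Fin a) (FF a b h ℝ), SF.mapR (SF.push (RingHom.id ℝ)) g = g := by
    intro g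
    refine SF.ext' fun S => ?_
    rw [SF.mapR_apply]
    funext u v
    rfl
  have h3 : (fun j => SF.mapR (SF.push (evAt hx)) (leafG f ϑ₀ j)) = leafAt ϑ₀ x := by
    funext j
    rw [leafG_map, h2, h4, leafAt, xR, evAt_apply, eval_X]
  have h1 := hLG (evAt hx)
  rw [h2, h3] at h1
  exact h1

/-- **The rank inequality.** -/
theorem hit_rank {n s Δ m t L : ℕ} {T : ℕ → ℕ} [Nonempty (Fin n)]
    (hq : q.Prime) (ha : 0 < a) (hT0 : T 0 = 2) (hTm : Monotone T) (hTK : T (2 * Δ + 4) ≤ a + b)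
    (hscale : ∀ k, k < 2 * Δ + 4 → ∃ z : ℝ, 0 ≤ z ∧ z ≤ 1 ∧ NumScale a b h (T k) z ∧
      z ^ (T (k + 1)) ≤ ((2:ℝ) ^ (a * h * L))⁻¹)
    (pos : Cell a b h → ZMod q) (hpos : Function.Injective pos) (hnq : n ≤ q ^ t)
    (g : Fin s → GOp (Fin n) s m (a + b)) (c : Comb (Fin n) s)
    {f : MvPolynomial (Fin n) ℝ}
    (hvol : volume {x : Fin n → ℝ | c.val x (rounds g (Δ + 1) x) = eval x f} ≠ 0) (hf0 : f ≠ 0)
    (hzero : MvPolynomial.aeval (fun j : Fin n => G ℝ t pos j) f = 0) :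
    (2:ℝ) ^ (a * h * L) ≤ ((a:ℝ) + b) * 2 ^ ((a + b) ^ 2) * (((n:ℝ) + s + 1) *
      (cost n s m (a + b) ^ (Δ + 1) * (((t:ℝ) + 1) ^ (a + b) * 2 ^ ((a + b) ^ 2)))) := by
  classical
  obtain ⟨i, x, hP0, hPr⟩ := exists_hybrid pos hf0 hzero
  set P := Hit.sub ℝ t pos i x f with hP
  set G' := G ℝ t pos (i : ℕ) with hG'
  obtain ⟨Q, hQ, hQnd⟩ := Polynomial.exists_eq_pow_rootMultiplicity_mul_and_not_dvd P hP0 G'
  have hr0 : P.rootMultiplicity G' ≠ 0 := by
    have := (Polynomial.rootMultiplicity_pos hP0).2 hPr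
    omega
  have hQev : Q.eval G' ≠ 0 := fun h => hQnd (Polynomial.dvd_iff_isRoot.2 h)
  -- the base point
  obtain ⟨A', hA'⟩ := exists_int_point _ hQev
  set A : Cell a b h × ZMod q → ℝ := fun y => (A' y : ℝ) with hA
  have hA1 : MvPolynomial.eval A (Q.eval G') ≠ 0 := hA'
  set g₀ : ℝ := MvPolynomial.eval A G' with hg₀
  set ζ : LaurentSeries ℝ := HahnSeries.C g₀ + tau ℝ with hζ
  have hcE : (P.map (MvPolynomial.eval A)).eval₂ (algebraMap ℝ (LaurentSeries ℝ)) ζ ≠ 0 := by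
    refine eval₂_ne_zero ?_ g₀
    rw [hQ, Polynomial.map_mul, Polynomial.map_pow, Polynomial.map_sub, Polynomial.map_X,
      Polynomial.map_C]
    refine mul_ne_zero (pow_ne_zero _ (Polynomial.X_sub_C_ne_zero _)) ?_
    intro h0
    apply hA1
    have h1 : MvPolynomial.eval A (Q.eval G') =
        (Q.map (MvPolynomial.eval A)).eval (MvPolynomial.eval A G') := by
      rw [Polynomial.eval_map, Polynomial.eval₂_at_apply]
    rw [h1, h0, Polynomial.eval_zero]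
  -- the expansion
  set Lc := line q t pos (i : ℕ) with hLc
  have hth := thS_leaf A Lc t pos i x (RingHom.id ℝ) ζ f
  rw [MvPolynomial.map_id, RingHom.comp_id] at hth
  have hleaf0 := leaf_empty A Lc t pos i x ζ
  set c₁ : Fin n → LaurentSeries ℝ := fun j => baseAt A t pos i x (LaurentSeries ℝ) ζ j with hc₁
  have hfc : f.eval₂ (algebraMap ℝ (LaurentSeries ℝ)) c₁ ≠ 0 := by
    have h1 := thS_empty (algebraMap ℝ (LaurentSeries ℝ))
      (leaf A Lc t pos i x (LaurentSeries ℝ) ζ) (z := c₁) hleaf0 f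
    rw [hth, ← hP, zHom_empty] at h1
    have h2 := congrFun (congrFun h1 (fun _ => true)) (fun _ => true)
    have h3 : (P.map (MvPolynomial.eval A)).eval₂ (algebraMap ℝ (LaurentSeries ℝ)) ζ =
        f.eval₂ (algebraMap ℝ (LaurentSeries ℝ)) c₁ := h2
    rw [← h3]
    exact hcE
  set ϑ : ℝ := ((2:ℝ) ^ (a * h * L))⁻¹ with hϑ
  have hϑ0 : 0 < ϑ := by positivity
  set κ : ℝ := ((t:ℝ) + 1) ^ (a + b) * 2 ^ ((a + b) ^ 2) with hκ
  have ht0 : (0:ℝ) ≤ t := Nat.cast_nonneg t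
  have hκ1 : 1 ≤ κ := one_le_mul_of_one_le_of_one_le (one_le_pow₀ (by linarith))
    (one_le_pow₀ (by norm_num))
  have hκϑ : ϑ ≤ κ * ϑ := le_mul_of_one_le_left hϑ0.le hκ1
  have hT1 : 2 ≤ T 1 := by
    have := hTm (Nat.zero_le 1)
    omega
  obtain ⟨z, hz0, hz1, hzs, hzT⟩ := hscale 0 (by omega)
  rw [hT0] at hzs
  set ϑ₀ : Fin n → SF (Fin b ⊕ Fin a) (FF a b h ℝ) := nilLeaf A Lc t pos i x with hϑ₀
  have h0 : ∀ j, ϑ₀ j ∅ = 0 := nilLeaf_empty A Lc t pos i x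
  have hvar : ∀ j, Good (bitFrame a b h) (T 1) (κ * ϑ) (ϑ₀ j) := fun j => by
    have h1 := leaf_good' A t pos i x hq hpos hnq (le_trans one_le_two hT1) hz0 hz1 hϑ0.le hzs hzT
      (0 : ℝ) j
    have h2 := Good_add_cst (le_trans one_le_two hT1) h1 (-(baseAt A t pos i x ℝ 0 j))
    have h3 : ϑ₀ j = leaf A Lc t pos i x ℝ 0 j +
        SF.cst (fun _ _ => -(baseAt A t pos i x ℝ 0 j)) := by
      rw [hϑ₀, nilLeaf, sub_eq_add_neg, ← map_neg]
      rfl
    rw [h3]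
    exact h2
  let i₀ : Fin b ⊕ Fin a := Sum.inr ⟨0, ha⟩
  obtain ⟨LG, hLG⟩ := exists_gen (f := f) h0 i₀
  set ρ : ℝ := 2 ^ ((a + b) ^ 2) * (((Fintype.card (Fin n) : ℝ) + s + 1) *
    (cost (Fintype.card (Fin n)) s m (a + b) ^ (Δ + 1) * (κ * ϑ))) * 2 ^ (b * (a * h)) with hρ
  -- the points of the set of positive measure
  set S : Set (Fin n → ℝ) := {x | (c.val x (rounds g (Δ + 1) x) = eval x f) ∧
    ((∀ t i, Fine (g i) (rounds g t) x) ∧
    PE (a + b) (fun z => c.val z (rounds g (Δ + 1) z) - eval z f) x 0) ∧ eval x f ≠ 0} with hS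
  have hSvol : volume S ≠ 0 := by
    intro hS0
    apply hvol
    have hcd : ContDiff ℝ ((a + b : ℕ) : WithTop ℕ∞)
        (fun z => c.val z (rounds g (Δ + 1) z) - eval z f) :=
      (c.contDiff (contDiff_rounds g (Δ + 1))).sub (contDiff_eval f)
    have h1 : ∀ᵐ x : Fin n → ℝ, x ∉ {x | c.val x (rounds g (Δ + 1) x) = eval x f} := by
      filter_upwards [ae_fine g, ae_flat (a + b) _ hcd, ae_eval_ne_zero hf0,
        measure_eq_zero_iff_ae_notMem.1 hS0] with x h1 h2 h3 h4 h5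
      exact h4 ⟨h5, ⟨h1, h2 (by rw [h5, sub_self])⟩, h3⟩
    exact measure_eq_zero_iff_ae_notMem.2 h1
  have hSf : ∀ x ∈ S, eval x f ≠ 0 := fun x hx => hx.2.2
  have hSrk : ∀ x (hx : x ∈ S), HasRk (fun u v => evAt (hSf x hx)
      (LG (Finset.univ.erase i₀) u v)) ⌊ρ⌋₊ := by
    intro x' hx
    have h1 := gen_at hLG (hSf x' hx)
    have h4 := log_rank (T := fun k => T (k + 1)) (ϑ := κ * ϑ) (Δ := Δ) h0 hT1
      (fun k l hkl => hTm (Nat.succ_le_succ hkl)) hTK (by positivity) hvar (fun k hk => by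
        obtain ⟨z, hz0, hz1, hzs, hzT⟩ := hscale (k + 1) (by omega)
        exact ⟨z, hz0, hz1, hzs, hzT.trans hκϑ⟩) g hx.2.1.1 c f hx.2.1.2 hx.2.2 i₀ h1
    obtain ⟨r, hr, hr'⟩ := h4
    refine HasRk.mono ?_ (Nat.le_floor hr')
    exact hr.congr fun u v => rfl
  -- the generic point near the root
  set φ₁ : Localization.Away f →+* LaurentSeries ℝ :=
    IsLocalization.Away.lift f (g := (MvPolynomial.eval₂Hom (algebraMap ℝ (LaurentSeries ℝ)) c₁))
      (isUnit_iff_ne_zero.2 hfc) with hφ₁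
  have hφ₁a : ∀ p : MvPolynomial (Fin n) ℝ,
      φ₁ (algebraMap (MvPolynomial (Fin n) ℝ) (Localization.Away f) p) =
      p.eval₂ (algebraMap ℝ (LaurentSeries ℝ)) c₁ := fun p =>
    IsLocalization.Away.lift_eq f _ p
  have hrk := transfer (LG (Finset.univ.erase i₀)) ⌊ρ⌋₊ hSvol hSf hSrk φ₁
  have h1 := hLG φ₁
  have h2 : φ₁.comp (cstR f) = algebraMap ℝ (LaurentSeries ℝ) := by
    refine RingHom.ext fun r => ?_
    rw [RingHom.comp_apply, cstR_apply, hφ₁a, eval₂_C]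
  have h3 : (fun j => SF.mapR (SF.push φ₁) (leafG f ϑ₀ j)) =
      leaf A Lc t pos i x (LaurentSeries ℝ) ζ := by
    funext j
    rw [leafG_map, h2, leaf_split, xR, hφ₁a, eval₂_X]
  rw [h2, h3, hth, ← hP] at h1
  have hρ0 : 0 ≤ ρ := by
    have : 0 ≤ cost (Fintype.card (Fin n)) s m (a + b) :=
      zero_le_one.trans (one_le_cost _ s m (a + b))
    positivity
  have hroot := root_step t pos (i : ℕ) A hr0 hQ hA1 hζ i₀ (SF.mapR (SF.push φ₁) LG) h1
    (ρ := ρ) ⟨⌊ρ⌋₊, hrk.congr fun u v => rfl, Nat.floor_le hρ0⟩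
  rw [hρ, Fintype.card_fin] at hroot
  set cc := cost n s m (a + b) with hcc
  set X : ℝ := ((n : ℝ) + s + 1) * (cc ^ (Δ + 1) * (κ * ϑ)) with hX
  have hpos2 : (0:ℝ) < 2 ^ (b * (a * h)) := by positivity
  have h5 : (1:ℝ) ≤ ((a:ℝ) + b) * (2 ^ ((a + b) ^ 2) * X) := by
    by_contra hcon
    rw [not_le] at hcon
    have h6 : ((a:ℝ) + b) * (2 ^ ((a + b) ^ 2) * X * 2 ^ (b * (a * h))) =
        (((a:ℝ) + b) * (2 ^ ((a + b) ^ 2) * X)) * 2 ^ (b * (a * h)) := by ring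
    rw [h6] at hroot
    nlinarith
  have h7 : (0:ℝ) < 2 ^ (a * h * L) := by positivity
  have h8 : ((a:ℝ) + b) * (2 ^ ((a + b) ^ 2) * X) = (((a:ℝ) + b) * 2 ^ ((a + b) ^ 2) *
      (((n:ℝ) + s + 1) * (cc ^ (Δ + 1) * κ))) / 2 ^ (a * h * L) := by
    rw [hX, hϑ]
    field_simp
  rw [h8, le_div_iff₀ h7, one_mul] at h5
  exact h5

end Pool.Agent.Y531.Sgen
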