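import Pool.Agent.Y531.Sgen.Log

/-!
# From points of a set of positive measure to all points
-/

set_option autoImplicit false
set_option linter.unusedSectionVars false
set_option maxHeartbeats 1000000
set_option synthInstance.maxHeartbeats 200000

namespace Pool.Agent.Y531.Sgen

open MvPolynomial Pool.Agent.W942 Pool.Agent.Y531 Pool.Agent.Y531.Mul Pool.Agent.Y531.Hit
open Pool.Agent.Y531.Smooth Pool.Agent.Y531.Hlim MeasureTheory

variable {σ : Type}

/-- The value of a fraction at a point. -/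
noncomputable def evAt {f : MvPolynomial σ ℝ} {x : σ → ℝ} (hx : eval x f ≠ 0) :
    Localization.Away f →+* ℝ :=
  IsLocalization.Away.lift f (g := (eval x : MvPolynomial σ ℝ →+* ℝ)) (isUnit_iff_ne_zero.2 hx)

theorem evAt_apply {f : MvPolynomial σ ℝ} {x : σ → ℝ} (hx : eval x f ≠ 0)
    (p : MvPolynomial σ ℝ) : evAt hx (algebraMap _ _ p) = eval x p :=
  IsLocalization.Away.lift_eq f _ p

/-- **Ranks.** -/
theorem transfer [Fintype σ] [Nonempty σ] {U V : Type*} [Fintype U] [Fintype V]
    {f : MvPolynomial σ ℝ}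
    (N : U → V → Localization.Away f) (r : ℕ) {S : Set (σ → ℝ)} (hS : volume S ≠ 0)
    (hf : ∀ x ∈ S, eval x f ≠ 0)
    (hN : ∀ x (hx : x ∈ S), HasRk (fun u v => evAt (hf x hx) (N u v)) r)
    {K : Type*} [Field K] (φ : Localization.Away f →+* K) :
    HasRk (fun u v => φ (N u v)) r := by
  classical
  rw [hasRk_iff]
  by_contra hcon
  push Not at hcon
  obtain ⟨r', I, J, hr', _, _, hdet⟩ := exists_minor (Matrix.of fun u v => φ (N u v))
  rw [← hr'] at hcon
  set D : Localization.Away f := ((Matrix.of N).submatrix I J).det with hD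
  have h1 : φ D ≠ 0 := by
    have h2 : (Matrix.of fun u v => φ (N u v)) = (Matrix.of N).map φ := by
      ext u v
      rfl
    rw [h2, map_submatrix_det] at hdet
    exact hdet
  obtain ⟨n, p, hp⟩ := IsLocalization.Away.surj f D
  have hp0 : p ≠ 0 := by
    rintro rfl
    rw [map_zero] at hp
    have h2 : IsUnit (algebraMap (MvPolynomial σ ℝ) (Localization.Away f) f ^ n) :=
      (IsLocalization.Away.algebraMap_isUnit f).pow n
    have h3 : D = 0 := (h2.mul_left_eq_zero).1 hp
    rw [h3, map_zero] at h1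
    exact h1 rfl
  apply hS
  have h2 : ∀ x ∈ S, eval x p = 0 := by
    intro x hx
    have h3 : evAt (hf x hx) D = 0 := by
      by_contra h4
      have h5 : (((Matrix.of N).map (evAt (hf x hx))).submatrix I J).det ≠ 0 := by
        rw [map_submatrix_det]
        exact h4
      have h6 := le_rank_of_minor _ I J h5
      have h7 := (hasRk_iff _ _).1 (hN x hx)
      have h8 : (Matrix.of fun u v => evAt (hf x hx) (N u v)) =
          (Matrix.of N).map (evAt (hf x hx)) := by
        ext u v
        rfl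
      rw [h8] at h7
      omega
    have h4 := congrArg (evAt (hf x hx)) hp
    rw [map_mul, h3, zero_mul, evAt_apply] at h4
    exact h4.symm
  have h3 := measure_eq_zero_iff_ae_notMem.2 (show ∀ᵐ x : σ → ℝ, x ∉ {x | eval x p = 0} from
    ae_eval_ne_zero hp0)
  exact measure_mono_null (fun x hx => h2 x hx) h3

variable {a b h : ℕ} {f : MvPolynomial σ ℝ}

/-- The constants. -/
noncomputable def cstR (f : MvPolynomial σ ℝ) : ℝ →+* Localization.Away f :=
  (algebraMap (MvPolynomial σ ℝ) (Localization.Away f)).comp C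

/-- The variables. -/
noncomputable def xR (f : MvPolynomial σ ℝ) (j : σ) : Localization.Away f :=
  algebraMap (MvPolynomial σ ℝ) (Localization.Away f) (X j)

/-- The expansion at the generic point. -/
noncomputable def leafG (f : MvPolynomial σ ℝ) (ϑ₀ : σ → SF (Fin b ⊕ Fin a) (FF a b h ℝ))
    (j : σ) : SF (Fin b ⊕ Fin a) (FF a b h (Localization.Away f)) :=
  SF.cst (algebraMap (Localization.Away f) (FF a b h (Localization.Away f)) (xR f j))
    + SF.mapR (SF.push (cstR f)) (ϑ₀ j)

theorem leafG_map {A : Type} [CommRing A] (φ : Localization.Away f →+* A)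
    (ϑ₀ : σ → SF (Fin b ⊕ Fin a) (FF a b h ℝ)) (j : σ) :
    SF.mapR (SF.push φ) (leafG f ϑ₀ j) =
      SF.cst (algebraMap A (FF a b h A) (φ (xR f j))) +
        SF.mapR (SF.push (φ.comp (cstR f))) (ϑ₀ j) := by
  rw [leafG, map_add, SF.mapR_cst]
  rfl

theorem leafG_empty {ϑ₀ : σ → SF (Fin b ⊕ Fin a) (FF a b h ℝ)} (h0 : ∀ j, ϑ₀ j ∅ = 0) (j : σ) :
    leafG f ϑ₀ j ∅ = algebraMap (Localization.Away f) (FF a b h (Localization.Away f))
      (xR f j) := by
  rw [leafG, SF.add_def, SF.cst_apply, if_pos rfl, SF.mapR_apply, h0, map_zero, add_zero]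

theorem eval₂_gen (p : MvPolynomial σ ℝ) :
    p.eval₂ (cstR f) (xR f) = algebraMap (MvPolynomial σ ℝ) (Localization.Away f) p := by
  have h1 : MvPolynomial.eval₂Hom (cstR f) (xR f) =
      algebraMap (MvPolynomial σ ℝ) (Localization.Away f) := by
    refine MvPolynomial.ringHom_ext (fun r => ?_) (fun x => ?_)
    · rw [MvPolynomial.eval₂Hom_C]; rfl
    · rw [MvPolynomial.eval₂Hom_X']; rfl
  exact congrFun (congrArg DFunLike.coe h1) p

/-- **The logarithmic derivative at the generic point.** -/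
theorem exists_gen {ϑ₀ : σ → SF (Fin b ⊕ Fin a) (FF a b h ℝ)} (h0 : ∀ j, ϑ₀ j ∅ = 0)
    (i₀ : Fin b ⊕ Fin a) : ∃ L : SF (Fin b ⊕ Fin a) (FF a b h (Localization.Away f)),
      ∀ {A : Type} [CommRing A] (φ : Localization.Away f →+* A),
      SF.dd i₀ (thS (φ.comp (cstR f)) (fun j => SF.mapR (SF.push φ) (leafG f ϑ₀ j)) f) =
        SF.mapR (SF.push φ) L *
          SF.sg i₀ (thS (φ.comp (cstR f)) (fun j => SF.mapR (SF.push φ) (leafG f ϑ₀ j)) f) := by
  have h1 : IsUnit (thS (cstR f) (leafG f ϑ₀) f ∅) := by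
    rw [thS_empty (cstR f) (leafG f ϑ₀) (leafG_empty h0) f, eval₂_gen]
    exact (IsLocalization.Away.algebraMap_isUnit f).map _
  obtain ⟨L, hL⟩ := exists_LD' i₀ _ h1
  refine ⟨L, ?_⟩
  intro A _ φ
  rw [← thS_map, ← SF.mapR_dd, ← SF.mapR_sg, hL, map_mul]

end Pool.Agent.Y531.Sgen
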